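import Pool.Agent.Helper673_greedy.ClawFree2

namespace Pool.Agent.Results.MP_06c78e_co.ClawFree

/-- Every finite connected claw-free graph has a greedy drawing in the Euclidean plane. -/
theorem result (V : Type) [Finite V] (G : SimpleGraph V) (hG : G.Connected)
    (hclaw : ∀ u a b c : V, G.Adj u a → G.Adj u b → G.Adj u c → a ≠ b → a ≠ c → b ≠ c →
      G.Adj a b ∨ G.Adj a c ∨ G.Adj b c) :
    ∃ p : V → EuclideanSpace ℝ (Fin 2), Function.Injective p ∧
      ∀ s t : V, s ≠ t → ∃ u : V, G.Adj s u ∧ dist (p u) (p t) < dist (p s) (p t) :=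
  Pool.Agent.Helper673_greedy.clawFree_hasGreedyDrawing hG hclaw

end Pool.Agent.Results.MP_06c78e_co.ClawFree
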