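import Pool.Agent.Helper673_greedy.Apex

namespace Pool.Agent.Results.MP_06c78e_co.CutTree

/-- For every `d` and `k` there is a depth `N` such that no finite graph `G` of the following kind
has a greedy drawing in `d`-dimensional Euclidean space: there are a set `X` of at most `k` vertices
and distinct vertices `w σ` outside `X`, one for every binary string `σ` of length at most `N`,
arranged like a complete binary tree of cut vertices of `G - X`: whenever the node `σ` lies strictly
between the nodes `τ` and `ρ` in the complete binary tree (whose node `σ` has the two children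
`false :: σ` and `true :: σ`), every walk of `G - X` from `w τ` to `w ρ` passes through `w σ`. -/
theorem result (d k : ℕ) : ∃ N : ℕ, ∀ (V : Type) [Finite V] (G : SimpleGraph V) (X : Finset V)
    (w : List Bool → V), X.card ≤ k →
    (∀ σ τ : List Bool, σ.length ≤ N → τ.length ≤ N → w σ = w τ → σ = τ) →
    (∀ σ : List Bool, σ.length ≤ N → w σ ∉ X) →
    (∀ σ τ ρ : List Bool, τ.length ≤ N → ρ.length ≤ N →
      (τ ≠ σ ∧ ρ ≠ σ ∧ (σ <:+ τ ∨ σ <:+ ρ) ∧ ∀ b : Bool, ¬ ((b :: σ) <:+ τ ∧ (b :: σ) <:+ ρ)) →
      ∀ q : G.Walk (w τ) (w ρ), (∀ x ∈ q.support, x ∉ X) → w σ ∈ q.support) →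
    ¬ ∃ p : V → EuclideanSpace ℝ (Fin d), Function.Injective p ∧
      ∀ s t : V, s ≠ t → ∃ u : V, G.Adj s u ∧ dist (p u) (p t) < dist (p s) (p t) :=
  Pool.Agent.Helper673_greedy.no_greedy_of_deep_cut_tree (EuclideanSpace ℝ (Fin d)) k

end Pool.Agent.Results.MP_06c78e_co.CutTree
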