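import Pool.Agent.Helper673_greedy.Subcubic

namespace Pool.Agent.Results.MP_06c78e_co.Subcubic

/-- Every finite graph with a connected bridgeless spanning subgraph of maximum degree at most
three has a greedy drawing in the Euclidean plane. -/
theorem result (V : Type) [Finite V] (G H : SimpleGraph V) (hHG : H ≤ G) (hH : H.Connected)
    (hbridge : ∀ e ∈ H.edgeSet, ¬ H.IsBridge e) (hdeg : ∀ v : V, (H.neighborSet v).ncard ≤ 3) :
    ∃ p : V → EuclideanSpace ℝ (Fin 2), Function.Injective p ∧
      ∀ s t : V, s ≠ t → ∃ u : V, G.Adj s u ∧ dist (p u) (p t) < dist (p s) (p t) :=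
  (Pool.Agent.Helper673_greedy.subcubic_hasGreedyDrawing hH hbridge hdeg).mono hHG

end Pool.Agent.Results.MP_06c78e_co.Subcubic
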