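import Pool.Agent.Helper673_greedy.TwoSets

namespace Pool.Agent.Results.MP_06c78e_co.TwoSets

/-- If a finite graph `G` has a greedy drawing in the Euclidean plane and `A`, `B` are disjoint
nonempty sets of vertices such that `B` lies in one component of `G - A` and `A` lies in one
component of `G - B`, then the numbers of components satisfy
`c(G - A) + c(G - B) + 1 ≤ 5 |A| + 5 |B|`. -/
theorem result (V : Type) [Finite V] (G : SimpleGraph V) (p : V → EuclideanSpace ℝ (Fin 2))
    (hinj : Function.Injective p)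
    (hgreedy : ∀ s t : V, s ≠ t → ∃ u : V, G.Adj s u ∧ dist (p u) (p t) < dist (p s) (p t))
    (A B : Set V) (hA : A.Nonempty) (hB : B.Nonempty) (hAB : Disjoint A B)
    (hBA : ∀ b b' : ↥(Aᶜ), (b : V) ∈ B → (b' : V) ∈ B → (G.induce Aᶜ).Reachable b b')
    (hAB' : ∀ a a' : ↥(Bᶜ), (a : V) ∈ A → (a' : V) ∈ A → (G.induce Bᶜ).Reachable a a') :
    Nat.card (G.induce Aᶜ).ConnectedComponent + Nat.card (G.induce Bᶜ).ConnectedComponent + 1 ≤
      5 * A.ncard + 5 * B.ncard :=
  (Pool.Agent.Helper673_greedy.greedyC_of ⟨hinj, hgreedy⟩).two_sets hA hB hAB hBA hAB'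

end Pool.Agent.Results.MP_06c78e_co.TwoSets
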